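import Pool.Agent.Helper86.AP.Goals

/-!
Packet AP-TRI (MP_bec853_al): cancellation in a product `X v Y⁻¹` of reduced words.
-/

set_option autoImplicit false

namespace Pool.Agent.Helper73.AP

open FreeGroup

variable {α : Type}

/-- cancellation in a product of two reduced words. -/
theorem two (X : List (α × Bool)) : ∀ Y : List (α × Bool), IsReduced X → IsReduced Y →
    ∃ X1 x Y1 : List (α × Bool), X = X1 ++ x ∧ Y = invRev x ++ Y1 ∧ IsReduced (X1 ++ Y1) := by
  induction X using List.reverseRecOn with
  | nil =>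
    intro Y _ hY
    exact ⟨[], [], Y, rfl, rfl, hY⟩
  | append_singleton X' a ih =>
    intro Y hX hY
    rcases Y with _ | ⟨b, Y'⟩
    · exact ⟨X' ++ [a], [], [], by simp, rfl, by simpa using hX⟩
    · by_cases hb : a.1 = b.1 → a.2 = b.2
      · refine ⟨X' ++ [a], [], b :: Y', by simp, rfl, ?_⟩
        unfold FreeGroup.IsReduced at hX hY ⊢
        rw [List.isChain_append]
        refine ⟨hX, hY, ?_⟩
        intro p hp q hq
        simp only [List.getLast?_append, List.getLast?_singleton, Option.some_or,
          Option.mem_def, Option.some.injEq, List.head?_cons] at hp hq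
        subst hp hq
        exact hb
      · have hX' : IsReduced X' := Pool.Agent.Helper35.PP.red_of hX ⟨[], [a], by simp⟩
        have hY' : IsReduced Y' := Pool.Agent.Helper35.PP.red_of hY ⟨[b], [], by simp⟩
        obtain ⟨X1, x, Y1, h1, h2, h3⟩ := ih Y' hX' hY'
        refine ⟨X1, x ++ [a], Y1, by rw [h1, List.append_assoc], ?_, h3⟩
        have h4 : b = (a.1, !a.2) := by
          push Not at hb
          obtain ⟨h5, h6⟩ := hb
          apply Prod.ext
          · exact h5.symm
          · show b.2 = !a.2
            revert h6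
            cases a.2 <;> cases b.2 <;> simp
        rw [invRev_append, h2, h4]
        simp [invRev]

end Pool.Agent.Helper73.AP

namespace Pool.Agent.Helper73.AP

open FreeGroup

theorem tTRI : Pool.Agent.Helper86.AP.S_TRI := by
  intro α _ X v Y b hX hv hY hb h
  obtain ⟨X1, x, v1, e1, e2, h1⟩ := two X v hX hv
  have hY' : IsReduced (invRev Y) := by
    rw [isReduced_iff_reduce_eq, reduce_invRev, hY.reduce_eq]
  obtain ⟨U, w, Y1, e3, e4, h2⟩ := two (X1 ++ v1) (invRev Y) h1 hY'
  have e5 : Y = invRev Y1 ++ w := by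
    have h3 := congrArg invRev e4
    rw [invRev_invRev, invRev_append, invRev_invRev] at h3
    exact h3
  have e6 : b = U ++ Y1 := by
    have h3 : FreeGroup.mk b = FreeGroup.mk (U ++ Y1) := by
      have e7 : FreeGroup.mk X * FreeGroup.mk v = FreeGroup.mk (X1 ++ v1) := by
        rw [e1, e2, ← mul_mk, ← mul_mk, ← mul_mk, ← inv_mk]
        group
      rw [← h, e7, e3, inv_mk, e4, ← mul_mk, ← mul_mk, ← inv_mk, ← mul_mk]
      group
    have h4 := reduce.sound h3
    rw [hb.reduce_eq, h2.reduce_eq] at h4
    exact h4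
  rcases List.append_eq_append_iff.1 e3 with ⟨v', h5, h6⟩ | ⟨c, h5, h6⟩
  · refine ⟨X1, [], x, invRev Y1, w, v', ?_, ?_, ?_, ?_, Or.inl rfl⟩
    · rw [List.append_nil]; exact e1
    · rw [List.append_nil]; exact e5
    · rw [e2, h6, List.append_assoc]
    · rw [invRev_invRev, ← h5]; exact e6
  · refine ⟨U, c, x, invRev Y1, v1, [], ?_, ?_, ?_, ?_, Or.inr rfl⟩
    · rw [← h5]; exact e1
    · rw [e5, h6, List.append_assoc]
    · rw [List.append_nil]; exact e2
    · rw [invRev_invRev, List.append_nil]; exact e6

end Pool.Agent.Helper73.AP
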